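import Pool.Agent.H85.SM.HOMG

/-!
# FCH: change of the frame and of the chart
-/

set_option autoImplicit false

namespace Pool.Agent.H85.SM

open MvPolynomial Pool.Agent.H84.SM

section

variable {R : Type} [CommRing R]

lemma cr_par (u v : Fin 3 → R) (h : ∀ i, cr u v i = 0) : ∀ a b, u a * v b = u b * v a := by
  have h0 : u 1 * v 2 - u 2 * v 1 = 0 := h 0
  have h1 : u 2 * v 0 - u 0 * v 2 = 0 := h 1
  have h2 : u 0 * v 1 - u 1 * v 0 = 0 := h 2
  intro a b
  fin_cases a <;> fin_cases b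
  · rfl
  · exact sub_eq_zero.1 h2
  · exact (sub_eq_zero.1 h1).symm
  · exact (sub_eq_zero.1 h2).symm
  · rfl
  · exact sub_eq_zero.1 h0
  · exact sub_eq_zero.1 h1
  · exact (sub_eq_zero.1 h0).symm
  · rfl

lemma cr_cr (G b m : Fin 3 → R) (hb : dp G b = 0) (hm : dp G m = 1) (i : Fin 3) :
    cr G (cr b m) i = b i := by
  rw [dp3] at hb hm
  fin_cases i
  · show G 1 * (b 0 * m 1 - b 1 * m 0) - G 2 * (b 2 * m 0 - b 0 * m 2) = b 0
    linear_combination b 0 * hm - m 0 * hb
  · show G 2 * (b 1 * m 2 - b 2 * m 1) - G 0 * (b 0 * m 1 - b 1 * m 0) = b 1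
    linear_combination b 1 * hm - m 1 * hb
  · show G 0 * (b 2 * m 0 - b 0 * m 2) - G 1 * (b 1 * m 2 - b 2 * m 1) = b 2
    linear_combination b 2 * hm - m 2 * hb

lemma hs_shift (c τ G : Fin 3 → R) (H : Fin 3 → Fin 3 → R) (η e : R)
    (hs : ∀ i j, H i j = H j i) (hE : ∀ j, ∑ i, c i * H i j = e * G j) (hGc : dp G c = 0)
    (hGt : dp G τ = 0) : ∑ i, ∑ j, H i j * (τ i + η * c i) * (τ j + η * c j) =
      ∑ i, ∑ j, H i j * τ i * τ j := by
  rw [dp3] at hGc hGt
  have e0 := hE 0
  have e1 := hE 1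
  have e2 := hE 2
  have s1 := hs 1 0
  have s2 := hs 2 0
  have s3 := hs 2 1
  simp only [Fin.sum_univ_three] at e0 e1 e2 ⊢
  rw [s1, s2] at e0
  rw [s3] at e1
  rw [s1, s2, s3]
  linear_combination (2 * η * τ 0 + η ^ 2 * c 0) * e0 + (2 * η * τ 1 + η ^ 2 * c 1) * e1 +
    (2 * η * τ 2 + η ^ 2 * c 2) * e2 + η ^ 2 * e * hGc + 2 * η * e * hGt

end

section

variable {k L : Type} [Field k] [Field L] [Algebra k L]

lemma alg_id {R : Type} [CommRing R] (B E x h g K S a a' b b' : R) (hC : B * E = 1)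
    (hD : a' + x * b' - (B * a + x * b) = K * g) :
    S * g - x ^ 2 * h * (a' + x * b') =
      B ^ 3 * ((S + -(x ^ 2 * h * K)) * E ^ 3 * g - (x * E) ^ 2 * h * (a + x * E * b)) := by
  linear_combination (-(x ^ 2 * h)) * hD + (-(S - x ^ 2 * h * K) * g *
    (B ^ 2 * E ^ 2 + B * E + 1) + B * (B * E + 1) * x ^ 2 * h * a +
      x ^ 3 * h * b * (B ^ 2 * E ^ 2 + B * E + 1)) * hC

/-- The coefficient extraction. -/
lemma extract (P : Polynomial (Polynomial L)) (β ε κ : PowerSeries L) (n j b : ℕ)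
    (hβ : PowerSeries.constantCoeff β = 1) (hβε : β * ε = 1)
    (h1 : ∀ j', j < j' → P.coeff j' = 0) (h2 : ∀ b', b' < b → (P.coeff j).coeff b' = 0) :
    PowerSeries.coeff b ((Polynomial.C (β ^ n) * Polynomial.eval₂RingHom
      (Polynomial.C.comp (Polynomial.eval₂RingHom (PowerSeries.C (R := L))
        (PowerSeries.X * ε))) ((Polynomial.X + Polynomial.C κ) * Polynomial.C (ε ^ 3)) P).coeff j) =
      (P.coeff j).coeff b := by
  set θ : Polynomial L →+* PowerSeries L := Polynomial.eval₂RingHom (PowerSeries.C (R := L))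
    (PowerSeries.X * ε) with hθ
  have hε : PowerSeries.constantCoeff ε = 1 := by
    have h := congrArg (PowerSeries.constantCoeff (R := L)) hβε
    rw [map_mul, hβ, one_mul, map_one] at h
    exact h
  have hdeg : P.natDegree ≤ j := by
    rw [Polynomial.natDegree_le_iff_coeff_eq_zero]
    intro N hN
    exact h1 N hN
  have hlin : ∀ i, ((Polynomial.X + Polynomial.C κ : Polynomial (PowerSeries L)) *
      Polynomial.C (ε ^ 3)) ^ i = (Polynomial.X + Polynomial.C κ) ^ i *
        Polynomial.C ((ε ^ 3) ^ i) := by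
    intro i
    rw [mul_pow, ← Polynomial.C_pow (a := ε ^ 3)]
  have hcoef : ∀ i ≤ j, ((Polynomial.C (θ (P.coeff i)) *
      ((Polynomial.X + Polynomial.C κ) * Polynomial.C (ε ^ 3)) ^ i).coeff j) =
        if i = j then θ (P.coeff j) * (ε ^ 3) ^ j else 0 := by
    intro i hi
    rw [hlin, Polynomial.coeff_C_mul, Polynomial.coeff_mul_C]
    split_ifs with hij
    · subst hij
      rw [Polynomial.coeff_X_add_C_pow, Nat.sub_self, pow_zero, Nat.choose_self]
      simp
    · rw [Polynomial.coeff_X_add_C_pow, Nat.choose_eq_zero_of_lt (lt_of_le_of_ne hi hij)]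
      simp
  have hρ : (Polynomial.eval₂RingHom (Polynomial.C.comp θ)
      ((Polynomial.X + Polynomial.C κ) * Polynomial.C (ε ^ 3)) P).coeff j =
        θ (P.coeff j) * (ε ^ 3) ^ j := by
    rw [Polynomial.coe_eval₂RingHom, Polynomial.eval₂_eq_sum_range' _ (Nat.lt_succ_of_le hdeg),
      Polynomial.finsetSum_coeff]
    refine (Finset.sum_congr rfl fun i hi =>
      hcoef i (Nat.lt_succ_iff.1 (Finset.mem_range.1 hi))).trans ?_
    rw [Finset.sum_ite_eq' (Finset.range (j + 1)) j]
    simp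
  rw [Polynomial.coeff_C_mul, hρ]
  obtain ⟨Q, hQ⟩ := (Polynomial.X_pow_dvd_iff).2 h2
  have hQ0 : (P.coeff j).coeff b = Q.coeff 0 := by
    rw [hQ, Polynomial.coeff_X_pow_mul', if_pos le_rfl, Nat.sub_self]
  have hθX : θ Polynomial.X = PowerSeries.X * ε := by
    rw [hθ, Polynomial.coe_eval₂RingHom, Polynomial.eval₂_X]
  have hθQ : PowerSeries.constantCoeff (θ Q) = Q.coeff 0 := by
    rw [hθ, Polynomial.coe_eval₂RingHom, Polynomial.hom_eval₂]
    have h3 : PowerSeries.constantCoeff (PowerSeries.X * ε) = (0 : L) := by simp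
    rw [h3]
    have h4 : (PowerSeries.constantCoeff (R := L)).comp (PowerSeries.C (R := L)) =
        RingHom.id L := by
      ext
      simp
    rw [h4]
    rw [Polynomial.eval₂_id, ← Polynomial.coeff_zero_eq_eval_zero]
  have h7 : θ (P.coeff j) = (PowerSeries.X * ε) ^ b * θ Q := by
    rw [hQ, map_mul, map_pow, hθX]
  rw [hQ0, h7]
  have h5 : β ^ n * ((PowerSeries.X * ε) ^ b * θ Q * (ε ^ 3) ^ j) =
      PowerSeries.X ^ b * (β ^ n * ε ^ b * θ Q * (ε ^ 3) ^ j) := by
    rw [mul_pow]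
    ring
  rw [h5]
  have h6 : PowerSeries.coeff b (PowerSeries.X ^ b * (β ^ n * ε ^ b * θ Q * (ε ^ 3) ^ j)) =
      PowerSeries.coeff 0 (β ^ n * ε ^ b * θ Q * (ε ^ 3) ^ j) := by
    have := PowerSeries.coeff_X_pow_mul (β ^ n * ε ^ b * θ Q * (ε ^ 3) ^ j) b 0
    rwa [zero_add] at this
  rw [h6, PowerSeries.coeff_zero_eq_constantCoeff_apply]
  simp only [map_mul, map_pow, hβ, hε, hθQ, one_pow, one_mul, mul_one]

end

theorem pf_FCH (hCMP : T_CMP) (hFRJ : T_FRJ) (hGPR : T_GPR) : T_FCH := by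
  intro k L _ _ _ _ _ G d c hd hS hI hc τ m τ' m' hF hF' e n M N hN l l' N1 N2 h1 h2 j b hj hb
  obtain ⟨hp1, -, -, -, hp5⟩ := hGPR k G d hd hS hI
  have hG0 : gp G ≠ 0 := hp1.ne_zero
  have hGh := hS.1
  have hcG : aeval c G = 0 := (hc G).2 dvd_rfl
  have hgr0 : ∀ i, gr G c i ≠ 0 := by
    intro i hi
    exact (hp5 i).2.1 ((hc _).1 hi)
  have hGc := euler0 hGh hcG
  have hcrt : ∀ (τ : Fin 3 → L), (∀ i, cr c τ i = gr G c i) → dp (gr G c) τ = 0 := by
    intro τ hF1
    rw [dp3, ← hF1 0, ← hF1 1, ← hF1 2]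
    show (c 1 * τ 2 - c 2 * τ 1) * τ 0 + (c 2 * τ 0 - c 0 * τ 2) * τ 1 +
      (c 0 * τ 1 - c 1 * τ 0) * τ 2 = 0
    ring
  have hGt := hcrt τ hF.1
  have hGt' := hcrt τ' hF'.1
  -- `τ' = τ + η c`
  obtain ⟨i0, hi0⟩ : ∃ i0, c i0 ≠ 0 := by
    by_contra hall
    push Not at hall
    refine hgr0 0 ?_
    rw [← hF.1 0]
    show c 1 * τ 2 - c 2 * τ 1 = 0
    rw [hall 1, hall 2]
    ring
  obtain ⟨η, hη⟩ : ∃ η : L, ∀ i, τ' i = τ i + η * c i := by
    refine ⟨(τ' i0 - τ i0) / c i0, fun i => ?_⟩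
    have hpar := cr_par c (fun i => τ' i - τ i) (by
      intro i
      have h3 : cr c (fun i => τ' i - τ i) i = cr c τ' i - cr c τ i := by
        unfold cr
        ring
      rw [h3, hF.1 i, hF'.1 i, sub_self]) i0 i
    field_simp
    linear_combination hpar
  have hh : hs G c τ' = hs G c τ := by
    have h3 := hs_shift c τ (gr G c) (fun i j => aeval c (pderiv i (pderiv j G))) η
      ((d - 1 : ℕ) : L) (fun i j => by
        show aeval c (pderiv i (pderiv j G)) = aeval c (pderiv j (pderiv i G))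
        rw [pderiv_comm']) (fun j => euler1 c hGh j) hGc hGt
    unfold hs
    simp only [hη]
    exact h3
  -- the difference of the two solutions
  set β0 : Polynomial L := 1 + Polynomial.C η * Polynomial.X with hβ0
  set Dl : Fin 3 → Polynomial L := fun i =>
    (Polynomial.C (cr c m' i) + Polynomial.X * Polynomial.C (cr τ' m' i)) -
      (β0 * Polynomial.C (cr c m i) + Polynomial.X * Polynomial.C (cr τ m i)) with hDl
  have hCcr : ∀ (a b : Fin 3 → L) (i : Fin 3), cr (fun i => Polynomial.C (a i))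
      (fun i => Polynomial.C (b i)) i = (Polynomial.C (cr a b i) : Polynomial L) := by
    intro a b i
    unfold cr
    simp only [← map_mul, ← map_sub]
  have hcrD : ∀ i, cr (fun i => Polynomial.C (gr G c i)) Dl i = 0 := by
    intro i
    have h3 : cr (fun i => Polynomial.C (gr G c i)) Dl i =
        (Polynomial.C (cr (gr G c) (cr c m') i) + Polynomial.X *
          Polynomial.C (cr (gr G c) (cr τ' m') i)) -
        (β0 * Polynomial.C (cr (gr G c) (cr c m) i) + Polynomial.X *
          Polynomial.C (cr (gr G c) (cr τ m) i)) := by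
      rw [hDl, ← hCcr, ← hCcr, ← hCcr, ← hCcr]
      unfold cr
      ring
    rw [h3, cr_cr _ _ _ hGc hF'.2, cr_cr _ _ _ hGt' hF'.2, cr_cr _ _ _ hGc hF.2,
      cr_cr _ _ _ hGt hF.2, hη, hβ0]
    simp only [map_add, map_mul]
    ring
  have hpar := cr_par _ _ hcrD
  set κD : Polynomial L := Polynomial.C (gr G c 0)⁻¹ * Dl 0 with hκD
  have hDκ : ∀ i, Dl i = κD * Polynomial.C (gr G c i) := by
    intro i
    have h3 : Polynomial.C (gr G c 0)⁻¹ * Polynomial.C (gr G c 0) = (1 : Polynomial L) := by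
      rw [← map_mul, inv_mul_cancel₀ (hgr0 0), map_one]
    have h4 := hpar 0 i
    calc Dl i = Polynomial.C (gr G c 0)⁻¹ * Polynomial.C (gr G c 0) * Dl i := by
          rw [h3, one_mul]
      _ = Polynomial.C (gr G c 0)⁻¹ * (Polynomial.C (gr G c 0) * Dl i) := by ring
      _ = Polynomial.C (gr G c 0)⁻¹ * (Polynomial.C (gr G c i) * Dl 0) := by rw [h4]
      _ = κD * Polynomial.C (gr G c i) := by rw [hκD]; ring
  set κ' : Polynomial L := -(Polynomial.X ^ 2 * Polynomial.C (hs G c τ) * κD) with hκ'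
  -- the ring homomorphisms
  set ι : Polynomial L →+* PowerSeries L := Polynomial.coeToPowerSeries.ringHom with hι
  have hιC : ∀ a : L, ι (Polynomial.C a) = PowerSeries.C a := by
    intro a
    exact Polynomial.coe_C a
  have hιX : ι Polynomial.X = PowerSeries.X := Polynomial.coe_X
  set β : PowerSeries L := ι β0 with hβ
  have hβ' : β = 1 + PowerSeries.C η * PowerSeries.X := by
    rw [hβ, hβ0, map_add, map_one, map_mul, hιC, hιX]
  have hβc : PowerSeries.constantCoeff β = 1 := by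
    rw [hβ']
    simp
  set ε : PowerSeries L := β⁻¹ with hε
  have hβε : β * ε = 1 := PowerSeries.mul_inv_cancel _ (by rw [hβc]; exact one_ne_zero)
  set κ : PowerSeries L := ι κ' with hκ
  set φ : Polynomial (Polynomial L) →+* Polynomial (PowerSeries L) :=
    Polynomial.mapRingHom ι with hφ
  set ρ : Polynomial (Polynomial L) →+* Polynomial (PowerSeries L) :=
    Polynomial.eval₂RingHom (Polynomial.C.comp (Polynomial.eval₂RingHom
      (PowerSeries.C (R := L)) (PowerSeries.X * ε)))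
      ((Polynomial.X + Polynomial.C κ) * Polynomial.C (ε ^ 3)) with hρ
  have hφC : ∀ p : Polynomial L, φ (Polynomial.C p) = Polynomial.C (ι p) := by
    intro p
    rw [hφ, Polynomial.coe_mapRingHom, Polynomial.map_C]
  have hφX : φ Polynomial.X = Polynomial.X := by
    rw [hφ, Polynomial.coe_mapRingHom, Polynomial.map_X]
  have hρC : ∀ a : L, ρ (Polynomial.C (Polynomial.C a)) = Polynomial.C (PowerSeries.C a) := by
    intro a
    rw [hρ]
    simp
  have hρg : ρ (Polynomial.C Polynomial.X) = Polynomial.C (PowerSeries.X * ε) := by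
    rw [hρ]
    simp
  have hρX : ρ Polynomial.X = (Polynomial.X + Polynomial.C κ) * Polynomial.C (ε ^ 3) := by
    rw [hρ]
    simp
  have hkφ : ∀ a : k, φ (algebraMap k _ a) = algebraMap k _ a := by
    intro a
    have h3 : algebraMap k (Polynomial (Polynomial L)) a =
        Polynomial.C (Polynomial.C (algebraMap k L a)) := rfl
    have h4 : algebraMap k (Polynomial (PowerSeries L)) a =
        Polynomial.C (PowerSeries.C (algebraMap k L a)) := by
      rw [Polynomial.algebraMap_apply, PowerSeries.algebraMap_apply]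
    rw [h3, h4, hφC, hιC]
  have hkρ : ∀ a : k, ρ (algebraMap k _ a) = algebraMap k _ a := by
    intro a
    have h3 : algebraMap k (Polynomial (Polynomial L)) a =
        Polynomial.C (Polynomial.C (algebraMap k L a)) := rfl
    have h4 : algebraMap k (Polynomial (PowerSeries L)) a =
        Polynomial.C (PowerSeries.C (algebraMap k L a)) := by
      rw [Polynomial.algebraMap_apply, PowerSeries.algebraMap_apply]
    rw [h3, h4, hρC]
  -- comparison of the points
  have hq : ∀ i, φ (fq c τ' i) = Polynomial.C β * ρ (fq c τ i) := by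
    intro i
    unfold fq li
    rw [map_add, map_mul, hφC, hφC, hφC, hιC, hιC, hιX, map_add, map_mul, hρC, hρC, hρg, hη,
      hβ']
    simp only [← map_mul, ← map_add]
    congr 1
    have h3 : β * ε = 1 := hβε
    rw [hβ'] at h3
    simp only [map_add, map_mul]
    linear_combination (-(PowerSeries.X * PowerSeries.C (τ i))) * h3
  have hs3 : ∀ i, φ (fs3 G c τ' m' i) = Polynomial.C β ^ 3 * ρ (fs3 G c τ m i) := by
    intro i
    have hD := congrArg ι (hDκ i)
    rw [hDl] at hD
    simp only [map_sub, map_add, map_mul, hιC, hιX] at hD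
    unfold fs3 li
    simp only [map_sub, map_add, map_mul, map_pow, hφC, hφX, hιC, hιX, hρC, hρg, hρX, hh]
    have hκ2 : κ = -(PowerSeries.X ^ 2 * PowerSeries.C (hs G c τ) * ι κD) := by
      rw [hκ, hκ']
      simp only [map_neg, map_mul, map_pow, hιC, hιX]
    rw [hκ2]
    have h3 : β * ε = 1 := hβε
    have hC : (Polynomial.C β : Polynomial (PowerSeries L)) * Polynomial.C ε = 1 := by
      rw [← map_mul, h3, map_one]
    have hD' := congrArg (Polynomial.C : PowerSeries L →+* _) hD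
    simp only [map_sub, map_add, map_mul] at hD'
    simp only [map_neg, map_mul, map_pow]
    exact alg_id _ _ _ _ _ _ _ _ _ _ _ hC hD'
  -- the values
  have hli : ∀ i, gr G (li c) i = Polynomial.C (Polynomial.C (gr G c i)) := by
    intro i
    unfold gr
    rw [aeval_li]
  have hinv : ∀ i, Polynomial.C (Polynomial.C (gr G c i)⁻¹) * gr G (li c) i =
      (1 : Polynomial (Polynomial L)) := by
    intro i
    rw [hli, ← map_mul, ← map_mul, inv_mul_cancel₀ (hgr0 i)]
    simp
  have e1 : evl l (Polynomial.C (Polynomial.C (gr G c l)⁻¹)) (li c) (fq c τ') (fs3 G c τ' m') N1 =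
      fe G l' c τ' m' N2 :=
    hCMP k G d hd hS hI e n M N hN (Polynomial (Polynomial L)) (li c) (fq c τ') (fs3 G c τ' m')
      l l' _ _ N1 N2 (hFRJ k L G d c τ' m' hGh hcG hF') (hinv l) (hinv l') h1 h2
  have e2 : φ (fe G l' c τ' m' N2) = Polynomial.C (β ^ n) * ρ (fe G l c τ m N1) := by
    have e3 := evl_map φ hkφ l (Polynomial.C (Polynomial.C (gr G c l)⁻¹)) (li c) (fq c τ')
      (fs3 G c τ' m') N1
    have e4 := evl_map ρ hkρ l (Polynomial.C (Polynomial.C (gr G c l)⁻¹)) (li c) (fq c τ)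
      (fs3 G c τ m) N1
    have e5 := evl_scale G hG0 d l hN h1 (ρ (Polynomial.C (Polynomial.C (gr G c l)⁻¹)))
      (fun i => ρ (li c i)) (fun i => ρ (fq c τ i)) (fun i => ρ (fs3 G c τ m i)) (Polynomial.C β)
    have e6 : φ (Polynomial.C (Polynomial.C (gr G c l)⁻¹)) =
        ρ (Polynomial.C (Polynomial.C (gr G c l)⁻¹)) := by
      rw [hφC, hιC, hρC]
    have e7 : (fun i => φ (li c i)) = fun i => ρ (li c i) := by
      funext i
      unfold li
      rw [hφC, hιC, hρC]
    rw [← e1, e3, e6, e7, funext hq, funext hs3, e5, ← e4, Polynomial.C_pow]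
    rfl
  have e8 := extract (fe G l c τ m N1) β ε κ n j b hβc hβε hj hb
  rw [← e8]
  have e9 := congrArg (fun p => PowerSeries.coeff b (p.coeff j)) e2
  rw [← e9, hφ, Polynomial.coe_mapRingHom, Polynomial.coeff_map, hι]
  exact (Polynomial.coeff_coe _ _).symm

end Pool.Agent.H85.SM
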