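import Pool.Agent.H84.SM.Targets

/-!
# FRJ, FRX: frames
-/

set_option autoImplicit false

namespace Pool.Agent.H85.SM

open MvPolynomial Pool.Agent.H84.SM

section

variable {R : Type} [CommRing R]

lemma dp3 (a b : Fin 3 → R) : dp a b = a 0 * b 0 + a 1 * b 1 + a 2 * b 2 := by
  unfold dp
  rw [Fin.sum_univ_three]

lemma core (c τ m G : Fin 3 → R) (H : Fin 3 → Fin 3 → R) (γ σ e : R)
    (hs : ∀ i j, H i j = H j i) (hE : ∀ j, ∑ i, c i * H i j = e * G j) (hGc : dp G c = 0)
    (hGt : dp G τ = 0) (hGm : dp G m = 1) :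
    dp G (fun i => c i + γ * τ i) = 0 ∧
    (∑ i, ∑ j, H i j * (c i + γ * τ i) * (c j + γ * τ j) =
      γ ^ 2 * ∑ i, ∑ j, H i j * τ i * τ j) ∧
    ∀ i, cr G (fun i => σ * G i - γ ^ 2 * (∑ i, ∑ j, H i j * τ i * τ j) *
      (cr c m i + γ * cr τ m i)) i =
        -(γ ^ 2 * (∑ i, ∑ j, H i j * τ i * τ j) * (c i + γ * τ i)) := by
  rw [dp3] at hGc hGt hGm
  refine ⟨?_, ?_, ?_⟩
  · rw [dp3]
    linear_combination hGc + γ * hGt
  · have e0 := hE 0
    have e1 := hE 1
    have e2 := hE 2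
    have s1 := hs 1 0
    have s2 := hs 2 0
    have s3 := hs 2 1
    simp only [Fin.sum_univ_three] at e0 e1 e2 ⊢
    rw [s1, s2] at e0
    rw [s3] at e1
    rw [s1, s2, s3]
    linear_combination (c 0 + 2 * γ * τ 0) * e0 + (c 1 + 2 * γ * τ 1) * e1 +
      (c 2 + 2 * γ * τ 2) * e2 + e * hGc + 2 * γ * e * hGt
  · set h := ∑ i, ∑ j, H i j * τ i * τ j with hh
    clear_value h
    intro i
    fin_cases i
    · show G 1 * (σ * G 2 - γ ^ 2 * h * ((c 0 * m 1 - c 1 * m 0) + γ * (τ 0 * m 1 - τ 1 * m 0))) -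
        G 2 * (σ * G 1 - γ ^ 2 * h * ((c 2 * m 0 - c 0 * m 2) + γ * (τ 2 * m 0 - τ 0 * m 2))) =
        -(γ ^ 2 * h * (c 0 + γ * τ 0))
      linear_combination (-(γ ^ 2 * h * (c 0 + γ * τ 0))) * hGm + γ ^ 2 * h * m 0 * hGc +
        γ ^ 3 * h * m 0 * hGt
    · show G 2 * (σ * G 0 - γ ^ 2 * h * ((c 1 * m 2 - c 2 * m 1) + γ * (τ 1 * m 2 - τ 2 * m 1))) -
        G 0 * (σ * G 2 - γ ^ 2 * h * ((c 0 * m 1 - c 1 * m 0) + γ * (τ 0 * m 1 - τ 1 * m 0))) =
        -(γ ^ 2 * h * (c 1 + γ * τ 1))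
      linear_combination (-(γ ^ 2 * h * (c 1 + γ * τ 1))) * hGm + γ ^ 2 * h * m 1 * hGc +
        γ ^ 3 * h * m 1 * hGt
    · show G 0 * (σ * G 1 - γ ^ 2 * h * ((c 2 * m 0 - c 0 * m 2) + γ * (τ 2 * m 0 - τ 0 * m 2))) -
        G 1 * (σ * G 0 - γ ^ 2 * h * ((c 1 * m 2 - c 2 * m 1) + γ * (τ 1 * m 2 - τ 2 * m 1))) =
        -(γ ^ 2 * h * (c 2 + γ * τ 2))
      linear_combination (-(γ ^ 2 * h * (c 2 + γ * τ 2))) * hGm + γ ^ 2 * h * m 2 * hGc +
        γ ^ 3 * h * m 2 * hGt

end

section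

variable {k L : Type} [Field k] [Field L] [Algebra k L]

lemma aeval_li (c : Fin 3 → L) (P : MvPolynomial (Fin 3) k) :
    aeval (li c) P = (Polynomial.C (Polynomial.C (aeval c P)) : Polynomial (Polynomial L)) := by
  have h := MvPolynomial.aeval_algebraMap_apply (R := k) (B := Polynomial (Polynomial L)) c P
  exact h

lemma hs_li (G : MvPolynomial (Fin 3) k) (c : Fin 3 → L) (y : Fin 3 → Polynomial (Polynomial L)) :
    hs G (li c) y = ∑ i, ∑ j, Polynomial.C (Polynomial.C (aeval c (pderiv i (pderiv j G)))) *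
      y i * y j := by
  unfold hs
  refine Finset.sum_congr rfl fun i _ => Finset.sum_congr rfl fun j _ => ?_
  rw [aeval_li]

/-- Euler's relation at a point of the curve. -/
lemma euler0 {G : MvPolynomial (Fin 3) k} {d : ℕ} {c : Fin 3 → L} (hG : G.IsHomogeneous d)
    (hc : aeval c G = 0) : dp (gr G c) c = 0 := by
  have h := hG.sum_X_mul_pderiv
  have h1 := congrArg (aeval c) h
  rw [map_sum, map_nsmul, hc, smul_zero] at h1
  rw [← h1]
  unfold dp gr
  refine Finset.sum_congr rfl fun i _ => ?_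
  rw [map_mul, aeval_X, mul_comm]

/-- Euler's relation for the derivatives. -/
lemma euler1 {G : MvPolynomial (Fin 3) k} {d : ℕ} (c : Fin 3 → L) (hG : G.IsHomogeneous d)
    (j : Fin 3) : ∑ i, c i * aeval c (pderiv i (pderiv j G)) = ((d - 1 : ℕ) : L) * gr G c j := by
  have h := (hG.pderiv (i := j)).sum_X_mul_pderiv
  have h1 := congrArg (aeval c) h
  rw [map_sum, map_nsmul, nsmul_eq_mul] at h1
  unfold gr
  rw [← h1]
  refine Finset.sum_congr rfl fun i _ => ?_
  rw [map_mul, aeval_X]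

lemma pderiv_comm' (G : MvPolynomial (Fin 3) k) (i j : Fin 3) :
    pderiv i (pderiv j G) = pderiv j (pderiv i G) := by
  have h : ⁅(pderiv i : Derivation k _ _), (pderiv j : Derivation k _ (MvPolynomial (Fin 3) k))⁆
      = 0 := by
    refine MvPolynomial.derivation_ext fun l => ?_
    rw [Derivation.commutator_apply, pderiv_X, pderiv_X]
    by_cases h1 : l = j
    · subst h1
      by_cases h2 : l = i
      · subst h2
        simp
      · rw [Pi.single_eq_same, Pi.single_eq_of_ne h2]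
        simp
    · rw [Pi.single_eq_of_ne h1]
      by_cases h2 : l = i
      · subst h2
        simp
      · rw [Pi.single_eq_of_ne h2]
        simp
  have h1 := congrArg (fun D => D G) h
  simp only [Derivation.commutator_apply] at h1
  exact sub_eq_zero.1 h1

end

theorem pf_FRJ : T_FRJ := by
  intro k L _ _ _ _ G d c τ m hG hc hF
  obtain ⟨hF1, hF2⟩ := hF
  have hGc := euler0 hG hc
  have hGt : dp (gr G c) τ = 0 := by
    rw [dp3, ← hF1 0, ← hF1 1, ← hF1 2]
    show (c 1 * τ 2 - c 2 * τ 1) * τ 0 + (c 2 * τ 0 - c 0 * τ 2) * τ 1 +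
      (c 0 * τ 1 - c 1 * τ 0) * τ 2 = 0
    ring
  have hdp : ∀ a b : Fin 3 → L, dp (li a) (li b) = Polynomial.C (Polynomial.C (dp a b)) := by
    intro a b
    rw [dp3, dp3]
    unfold li
    simp only [← map_mul, ← map_add]
  have hcr : ∀ (a b : Fin 3 → L) (i : Fin 3), cr (li a) (li b) i = li (cr a b) i := by
    intro a b i
    unfold cr li
    simp only [← map_mul, ← map_sub]
  have hgr : gr G (li c) = li (gr G c) := by
    funext i
    unfold gr
    rw [aeval_li]
    rfl
  have hh : Polynomial.C (Polynomial.C (hs G c τ)) =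
      ∑ i, ∑ j, Polynomial.C (Polynomial.C (aeval c (pderiv i (pderiv j G)))) *
        li τ i * li τ j := by
    unfold hs li
    simp only [map_sum, map_mul]
  obtain ⟨h1, h2, h3⟩ := core (li c) (li τ) (li m) (li (gr G c))
    (fun i j => Polynomial.C (Polynomial.C (aeval c (pderiv i (pderiv j G)))))
    (Polynomial.C Polynomial.X) Polynomial.X (Polynomial.C (Polynomial.C ((d - 1 : ℕ) : L)))
    (fun i j => by
      show Polynomial.C (Polynomial.C (aeval c (pderiv i (pderiv j G)))) =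
        Polynomial.C (Polynomial.C (aeval c (pderiv j (pderiv i G))))
      rw [pderiv_comm'])
    (fun j => by
      have := congrArg (fun x => (Polynomial.C (Polynomial.C x) : Polynomial (Polynomial L)))
        (euler1 c hG j)
      simp only [map_sum, map_mul] at this
      exact this)
    (by rw [hdp, hGc]; simp) (by rw [hdp, hGt]; simp) (by rw [hdp, hF2]; simp)
  constructor
  · rw [hgr]
    exact h1
  · intro i
    have h4 := h3 i
    have e1 : hs G (li c) (fq c τ) = Polynomial.C Polynomial.X ^ 2 *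
        ∑ i, ∑ j, Polynomial.C (Polynomial.C (aeval c (pderiv i (pderiv j G)))) *
          li τ i * li τ j := by
      rw [hs_li]
      exact h2
    have e2 : fs3 G c τ m = fun i => Polynomial.X * li (gr G c) i - Polynomial.C Polynomial.X ^ 2 *
        (∑ i, ∑ j, Polynomial.C (Polynomial.C (aeval c (pderiv i (pderiv j G)))) *
          li τ i * li τ j) * (cr (li c) (li m) i + Polynomial.C Polynomial.X *
            cr (li τ) (li m) i) := by
      funext i
      rw [hcr, hcr, ← hh]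
      rfl
    rw [hgr, e1, e2]
    exact h4

theorem pf_FRX : T_FRX := by
  intro k L _ _ _ _ G d c hG hc l l' hl hl'
  have hGc := euler0 hG hc
  constructor
  · intro i
    have key : ∀ (g e : Fin 3 → L) (t : L), cr c (fun i => cr g e i / t) i =
        (g i * dp c e - e i * dp g c) / t := by
      intro g e t
      rw [dp3, dp3]
      fin_cases i
      · show c 1 * ((g 0 * e 1 - g 1 * e 0) / t) - c 2 * ((g 2 * e 0 - g 0 * e 2) / t) =
          (g 0 * (c 0 * e 0 + c 1 * e 1 + c 2 * e 2) -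
            e 0 * (g 0 * c 0 + g 1 * c 1 + g 2 * c 2)) / t
        ring
      · show c 2 * ((g 1 * e 2 - g 2 * e 1) / t) - c 0 * ((g 0 * e 1 - g 1 * e 0) / t) =
          (g 1 * (c 0 * e 0 + c 1 * e 1 + c 2 * e 2) -
            e 1 * (g 0 * c 0 + g 1 * c 1 + g 2 * c 2)) / t
        ring
      · show c 0 * ((g 2 * e 0 - g 0 * e 2) / t) - c 1 * ((g 1 * e 2 - g 2 * e 1) / t) =
          (g 2 * (c 0 * e 0 + c 1 * e 1 + c 2 * e 2) -
            e 2 * (g 0 * c 0 + g 1 * c 1 + g 2 * c 2)) / t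
        ring
    have hce : dp c (Pi.single l (1 : L)) = c l := by
      unfold dp
      simp [Pi.single_apply]
    rw [key, hGc, hce, mul_zero, sub_zero]
    exact mul_div_cancel_right₀ _ hl
  · rw [dp3]
    fin_cases l' <;> simp at hl' ⊢ <;> exact mul_inv_cancel₀ hl'

end Pool.Agent.H85.SM
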