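import Pool.Agent.H84.SM.Targets

/-!
# NUB: estimate of the upper bound
-/

set_option autoImplicit false

namespace Pool.Agent.H85.SM

open Pool.Agent.H84.SM

lemma cast_sub_le' {a b : ℕ} {x : ℝ} (h : (a : ℝ) ≤ x + b) (hx : 0 ≤ x) :
    ((a - b : ℕ) : ℝ) ≤ x := by
  rcases le_total b a with h1 | h1
  · rw [Nat.cast_sub h1]
    linarith
  · rw [Nat.sub_eq_zero_of_le h1]
    simpa using hx

lemma bdim_bound (d e i : ℕ) (hd : 2 ≤ d) :
    (((e + 2).choose 2 * (i + 2).choose 2 - (e + 3 - d).choose 2 * (i + 1).choose 2 : ℕ) : ℝ) ≤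
      ((e : ℝ) + 2) ^ 2 * ((i : ℝ) + 1) / 2 +
        ((d : ℝ) - 1) * ((e : ℝ) + 2) * ((i : ℝ) + 1) ^ 2 / 2 := by
  have hd' : (2 : ℝ) ≤ d := by exact_mod_cast hd
  have he : (0 : ℝ) ≤ e := Nat.cast_nonneg e
  have hi : (0 : ℝ) ≤ i := Nat.cast_nonneg i
  have hx : 0 ≤ ((e : ℝ) + 2) ^ 2 * ((i : ℝ) + 1) / 2 +
        ((d : ℝ) - 1) * ((e : ℝ) + 2) * ((i : ℝ) + 1) ^ 2 / 2 := by
    have h1 : (0 : ℝ) ≤ d - 1 := by linarith
    positivity
  refine cast_sub_le' ?_ hx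
  rw [Nat.cast_mul, Nat.cast_mul, Nat.cast_choose_two, Nat.cast_choose_two,
    Nat.cast_choose_two ℝ (i + 1)]
  push_cast
  -- the difference of the two binomials
  have key : ((e : ℝ) + 2) * ((e : ℝ) + 2 - 1) / 2 - (((e + 3 - d).choose 2 : ℕ) : ℝ) ≤
      ((d : ℝ) - 1) * ((e : ℝ) + 2) := by
    rcases le_total d (e + 3) with h1 | h1
    · rw [Nat.cast_choose_two, Nat.cast_sub h1]
      push_cast
      nlinarith
    · rw [Nat.sub_eq_zero_of_le h1]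
      have h2 : (e : ℝ) + 3 ≤ d := by exact_mod_cast h1
      simp only [Nat.choose_zero_succ, Nat.cast_zero]
      nlinarith
  have hp : 0 ≤ ((i : ℝ) + 1) * ((i : ℝ) + 1 - 1) / 2 := by
    have h3 : (i : ℝ) + 1 - 1 = i := by ring
    rw [h3]
    positivity
  have hp2 : ((i : ℝ) + 1) * ((i : ℝ) + 1 - 1) / 2 ≤ ((i : ℝ) + 1) ^ 2 / 2 := by nlinarith
  have h4 : (((e : ℝ) + 2) * ((e : ℝ) + 2 - 1) / 2 - (((e + 3 - d).choose 2 : ℕ) : ℝ)) *
      (((i : ℝ) + 1) * ((i : ℝ) + 1 - 1) / 2) ≤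
      ((d : ℝ) - 1) * ((e : ℝ) + 2) * (((i : ℝ) + 1) ^ 2 / 2) := by
    refine (mul_le_mul_of_nonneg_right key hp).trans ?_
    refine mul_le_mul_of_nonneg_left hp2 ?_
    have h1 : (0 : ℝ) ≤ d - 1 := by linarith
    positivity
  have h5 : ((e : ℝ) + 2) * ((e : ℝ) + 2 - 1) / 2 * ((i : ℝ) + 1) ≤
      ((e : ℝ) + 2) ^ 2 * ((i : ℝ) + 1) / 2 := by
    have h6 : ((e : ℝ) + 2) * ((e : ℝ) + 2 - 1) / 2 ≤ ((e : ℝ) + 2) ^ 2 / 2 := by nlinarith
    have h7 := mul_le_mul_of_nonneg_right h6 (by linarith : (0 : ℝ) ≤ (i : ℝ) + 1)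
    linarith
  have h8 : ((e : ℝ) + 2) * ((e : ℝ) + 2 - 1) / 2 * (((i : ℝ) + 2) * ((i : ℝ) + 2 - 1) / 2) =
      ((e : ℝ) + 2) * ((e : ℝ) + 2 - 1) / 2 * ((i : ℝ) + 1) +
      (((e : ℝ) + 2) * ((e : ℝ) + 2 - 1) / 2 - (((e + 3 - d).choose 2 : ℕ) : ℝ)) *
      (((i : ℝ) + 1) * ((i : ℝ) + 1 - 1) / 2) +
      (((e + 3 - d).choose 2 : ℕ) : ℝ) * (((i : ℝ) + 1) * ((i : ℝ) + 1 - 1) / 2) := by
    ring
  rw [h8]
  linarith

/-- The antiderivative. -/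
noncomputable def Ph (d c u : ℝ) : ℝ :=
  d * (4 * c * u ^ 3 - 9 * u ^ 4) + (d - 1) * (6 * c ^ 2 * u ^ 2 - 24 * c * u ^ 3 + 27 * u ^ 4)

lemma Ph_nonneg (d c u : ℝ) (hd : 1 ≤ d) (hu : 0 ≤ u) (huc : 3 * u ≤ c) : 0 ≤ Ph d c u := by
  unfold Ph
  have h1 : 0 ≤ 4 * c * u ^ 3 - 9 * u ^ 4 := by
    have : 4 * c * u ^ 3 - 9 * u ^ 4 = u ^ 3 * (4 * c - 9 * u) := by ring
    rw [this]
    have h2 : 0 ≤ 4 * c - 9 * u := by linarith
    positivity
  have h3 : 0 ≤ 6 * c ^ 2 * u ^ 2 - 24 * c * u ^ 3 + 27 * u ^ 4 := by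
    have : 6 * c ^ 2 * u ^ 2 - 24 * c * u ^ 3 + 27 * u ^ 4 =
        u ^ 2 * (27 * (u - 4 * c / 9) ^ 2 + (2 / 3) * c ^ 2) := by ring
    rw [this]
    positivity
  have h4 : 0 ≤ d - 1 := by linarith
  have h5 : 0 ≤ d := by linarith
  positivity

lemma Ph_le (d c u : ℝ) (hd : 1 ≤ d) (hu : 0 ≤ u) (huc : 3 * u ≤ c) :
    Ph d c u ≤ (4 * d - 3) / 27 * c ^ 4 := by
  unfold Ph
  have hc : 0 ≤ c := by linarith
  have h1 : 4 * c * u ^ 3 - 9 * u ^ 4 ≤ c ^ 4 / 27 := by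
    have : c ^ 4 / 27 - (4 * c * u ^ 3 - 9 * u ^ 4) =
        (c - 3 * u) ^ 2 * (c ^ 2 + 6 * c * u + 27 * u ^ 2) / 27 := by ring
    have h2 : 0 ≤ (c - 3 * u) ^ 2 * (c ^ 2 + 6 * c * u + 27 * u ^ 2) / 27 := by positivity
    linarith
  have h3 : 6 * c ^ 2 * u ^ 2 - 24 * c * u ^ 3 + 27 * u ^ 4 ≤ c ^ 4 / 9 := by
    have : c ^ 4 / 9 - (6 * c ^ 2 * u ^ 2 - 24 * c * u ^ 3 + 27 * u ^ 4) =
        (c - 3 * u) ^ 3 * (c + 9 * u) / 9 := by ring
    have h4 : 0 ≤ c - 3 * u := by linarith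
    have h2 : 0 ≤ (c - 3 * u) ^ 3 * (c + 9 * u) / 9 := by positivity
    linarith
  have h5 := mul_le_mul_of_nonneg_left h1 (by linarith : 0 ≤ d)
  have h6 := mul_le_mul_of_nonneg_left h3 (by linarith : 0 ≤ d - 1)
  linarith

/-- Comparison with the difference of the antiderivative. -/
lemma step_big (d c u : ℝ) (hd : 4 ≤ d) (hc : 1 ≤ c) (hu : 0 ≤ u) (huc : u ≤ c) :
    12 * d * (d * (u ^ 2 * (c - 3 * u)) + (d - 1) * (u * (c - 3 * u) ^ 2)) ≤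
      Ph d c u - Ph d c (u - d) + 60 * d ^ 5 * c ^ 2 := by
  have hid : 12 * d * (d * (u ^ 2 * (c - 3 * u)) + (d - 1) * (u * (c - 3 * u) ^ 2)) =
      Ph d c u - Ph d c (u - d) + (6 * d ^ 2 * (d * (2 * c * u - 9 * u ^ 2) +
        (d - 1) * (c ^ 2 - 12 * c * u + 27 * u ^ 2)) -
        2 * d ^ 3 * (d * (2 * c - 18 * u) + (d - 1) * (-12 * c + 54 * u)) +
        d ^ 4 * (18 * d - 27)) := by
    unfold Ph
    ring
  rw [hid]
  have hcu : c * u ≤ c ^ 2 := by nlinarith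
  have hcu0 : 0 ≤ c * u := by positivity
  have hu2 : u ^ 2 ≤ c ^ 2 := by nlinarith
  have hc2 : c ≤ c ^ 2 := by nlinarith
  have hc3 : 1 ≤ c ^ 2 := by nlinarith
  have h1 : d * (2 * c * u - 9 * u ^ 2) + (d - 1) * (c ^ 2 - 12 * c * u + 27 * u ^ 2) ≤
      30 * d * c ^ 2 := by
    have h2 : 2 * c * u - 9 * u ^ 2 ≤ 2 * c ^ 2 := by nlinarith
    have h3 : c ^ 2 - 12 * c * u + 27 * u ^ 2 ≤ 28 * c ^ 2 := by nlinarith
    have h4 := mul_le_mul_of_nonneg_left h2 (by linarith : 0 ≤ d)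
    have h5 := mul_le_mul_of_nonneg_left h3 (by linarith : 0 ≤ d - 1)
    nlinarith
  have h6 : -(30 * d * c ^ 2) ≤ d * (2 * c - 18 * u) + (d - 1) * (-12 * c + 54 * u) := by
    have h2 : -(18 * c ^ 2) ≤ 2 * c - 18 * u := by nlinarith
    have h3 : -(12 * c ^ 2) ≤ -12 * c + 54 * u := by nlinarith
    have h4 := mul_le_mul_of_nonneg_left h2 (by linarith : 0 ≤ d)
    have h5 := mul_le_mul_of_nonneg_left h3 (by linarith : 0 ≤ d - 1)
    nlinarith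
  have h7 := mul_le_mul_of_nonneg_left h1 (by positivity : 0 ≤ 6 * d ^ 2)
  have h8 := mul_le_mul_of_nonneg_left h6 (by positivity : 0 ≤ 2 * d ^ 3)
  have hd3 : d ^ 3 ≤ d ^ 5 / 16 := by
    have : d ^ 5 = d ^ 3 * (d * d) := by ring
    have h16 : 16 ≤ d * d := by nlinarith
    have hd0 : 0 ≤ d ^ 3 := by positivity
    nlinarith
  have hd4 : d ^ 4 ≤ d ^ 5 / 4 := by
    have : d ^ 5 = d ^ 4 * d := by ring
    have hd0 : 0 ≤ d ^ 4 := by positivity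
    nlinarith
  have h9 : d ^ 4 * (18 * d - 27) ≤ 18 * d ^ 5 * c ^ 2 := by
    have hd0 : 0 ≤ d ^ 4 := by positivity
    have hd5 : 0 ≤ d ^ 5 := by positivity
    nlinarith
  have h10 : d ^ 3 * c ^ 2 ≤ d ^ 5 / 16 * c ^ 2 := mul_le_mul_of_nonneg_right hd3 (by positivity)
  have h11 : d ^ 4 * c ^ 2 ≤ d ^ 5 / 4 * c ^ 2 := mul_le_mul_of_nonneg_right hd4 (by positivity)
  have h12 : 0 ≤ d ^ 5 * c ^ 2 := by positivity
  nlinarith

lemma step_all (d c u : ℝ) (hd : 4 ≤ d) (hc : 1 ≤ c) (hu : 0 ≤ u) (huc : 3 * u ≤ c) :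
    12 * d * (d * (u ^ 2 * (c - 3 * u)) + (d - 1) * (u * (c - 3 * u) ^ 2)) ≤
      Ph d c (max u 0) - Ph d c (max (u - d) 0) + 60 * d ^ 5 * c ^ 2 := by
  rw [max_eq_left hu]
  rcases le_total 0 (u - d) with h1 | h1
  · rw [max_eq_left h1]
    exact step_big d c u hd hc hu (by linarith)
  · rw [max_eq_right h1]
    have h0 : Ph d c 0 = 0 := by
      unfold Ph
      ring
    rw [h0]
    have h2 := Ph_nonneg d c u (by linarith) hu huc
    have hud : u ≤ d := by linarith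
    have h3 : 0 ≤ c - 3 * u := by linarith
    have h4 : u ^ 2 * (c - 3 * u) ≤ d ^ 2 * c ^ 2 := by
      have h5 : u ^ 2 ≤ d ^ 2 := by nlinarith
      have h6 : c - 3 * u ≤ c ^ 2 := by nlinarith
      exact mul_le_mul h5 h6 h3 (by positivity)
    have h7 : u * (c - 3 * u) ^ 2 ≤ d * c ^ 2 := by
      have h6 : (c - 3 * u) ^ 2 ≤ c ^ 2 := by nlinarith
      exact mul_le_mul hud h6 (by positivity) (by linarith)
    have h8 := mul_le_mul_of_nonneg_left h4 (by linarith : 0 ≤ d)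
    have h9 := mul_le_mul_of_nonneg_left h7 (by linarith : 0 ≤ d - 1)
    have h10 : d * (u ^ 2 * (c - 3 * u)) + (d - 1) * (u * (c - 3 * u) ^ 2) ≤
        2 * d ^ 3 * c ^ 2 := by
      have h11 : d * (d ^ 2 * c ^ 2) = d ^ 3 * c ^ 2 := by ring
      have h12 : (d - 1) * (d * c ^ 2) ≤ d ^ 3 * c ^ 2 := by
        have h13 : (d - 1) * d ≤ d ^ 3 := by nlinarith [sq_nonneg d]
        have := mul_le_mul_of_nonneg_right h13 (by positivity : 0 ≤ c ^ 2)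
        linarith
      linarith
    have h14 := mul_le_mul_of_nonneg_left h10 (by positivity : 0 ≤ 12 * d)
    have h15 : 12 * d * (2 * d ^ 3 * c ^ 2) ≤ 60 * d ^ 5 * c ^ 2 := by
      have h16 : 12 * d * (2 * d ^ 3) ≤ 60 * d ^ 5 := by
        have : 60 * d ^ 5 = 60 * d * d ^ 4 := by ring
        have hd0 : 0 ≤ d ^ 4 := by positivity
        nlinarith
      have := mul_le_mul_of_nonneg_right h16 (by positivity : 0 ≤ c ^ 2)
      linarith
    linarith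

/-- The steps with an empty space. -/
lemma step_zero (d c u : ℝ) (hd : 4 ≤ d) (hc : 4 ≤ c) (hu : u ≤ d + 1) (huc : 3 * u ≤ c) :
    0 ≤ Ph d c (max u 0) - Ph d c (max (u - d) 0) + 60 * d ^ 5 * c ^ 2 := by
  have h1 : 0 ≤ Ph d c (max u 0) := by
    refine Ph_nonneg d c _ (by linarith) (le_max_right _ _) ?_
    rcases le_total u 0 with h | h
    · rw [max_eq_right h]
      linarith
    · rw [max_eq_left h]
      exact huc
  have h2 : Ph d c (max (u - d) 0) ≤ 60 * d ^ 5 * c ^ 2 := by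
    set v := max (u - d) 0 with hv
    have hv0 : 0 ≤ v := le_max_right _ _
    have hv1 : v ≤ 1 := max_le (by linarith) (by norm_num)
    unfold Ph
    have e1 : v ^ 2 ≤ 1 := by nlinarith
    have e2 : v ^ 3 ≤ 1 := by
      have : v ^ 3 = v ^ 2 * v := by ring
      rw [this]
      exact mul_le_one₀ e1 hv0 hv1
    have e3 : v ^ 4 ≤ 1 := by
      have : v ^ 4 = v ^ 2 * v ^ 2 := by ring
      rw [this]
      exact mul_le_one₀ e1 (by positivity) e1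
    have e4 : 0 ≤ v ^ 4 := by positivity
    have e5 : 0 ≤ v ^ 3 := by positivity
    have hc2 : c ≤ c ^ 2 := by nlinarith
    have hc3 : 1 ≤ c ^ 2 := by nlinarith
    have h3 : 4 * c * v ^ 3 - 9 * v ^ 4 ≤ 4 * c ^ 2 := by
      have : c * v ^ 3 ≤ c * 1 := mul_le_mul_of_nonneg_left e2 (by linarith)
      nlinarith
    have h4 : 6 * c ^ 2 * v ^ 2 - 24 * c * v ^ 3 + 27 * v ^ 4 ≤ 33 * c ^ 2 := by
      have h5 : c ^ 2 * v ^ 2 ≤ c ^ 2 * 1 := mul_le_mul_of_nonneg_left e1 (by positivity)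
      have h6 : 0 ≤ c * v ^ 3 := by positivity
      nlinarith
    have h7 := mul_le_mul_of_nonneg_left h3 (by linarith : 0 ≤ d)
    have h8 := mul_le_mul_of_nonneg_left h4 (by linarith : 0 ≤ d - 1)
    have h9 : 37 * d * c ^ 2 ≤ 60 * d ^ 5 * c ^ 2 := by
      have h10 : 37 * d ≤ 60 * d ^ 5 := by
        have h11 : 1 ≤ d ^ 4 := one_le_pow₀ (by linarith)
        have : 60 * d ^ 5 = 60 * d * d ^ 4 := by ring
        nlinarith
      exact mul_le_mul_of_nonneg_right h10 (by positivity)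
    nlinarith
  linarith

/-- The bound for a fixed `n`. -/
lemma ub_fixed (d : ℕ) (hd : 4 ≤ d) (n : ℕ) (τ : ℤ) (hτ : 0 ≤ τ) (hτd : τ ≤ d) :
    24 * (d : ℝ) ^ 3 * (ub d n τ : ℝ) ≤
      (4 * (d : ℝ) - 3) / 27 * (((d : ℝ) - 3) * n + 4 * d + 6) ^ 4 +
        ((n : ℝ) + 1) * (60 * (d : ℝ) ^ 5 * (((d : ℝ) - 3) * n + 4 * d + 6) ^ 2) := by
  set c : ℝ := ((d : ℝ) - 3) * n + 4 * d + 6 with hc
  have hd' : (4 : ℝ) ≤ d := by exact_mod_cast hd
  have hn0 : (0 : ℝ) ≤ n := Nat.cast_nonneg n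
  have hc4 : 4 ≤ c := by
    have : 0 ≤ ((d : ℝ) - 3) * n := mul_nonneg (by linarith) hn0
    linarith
  have hc1 : 1 ≤ c := by linarith
  set u : ℕ → ℝ := fun j => d * j - n + 2 with hu
  have hstep : ∀ j : ℕ, u (j + 1) - d = u j := by
    intro j
    simp only [hu]
    push_cast
    ring
  have hterm : ∀ j ∈ Finset.range (n / 3 + 1), 24 * (d : ℝ) ^ 3 *
      ((bdim d (τ - n + d * j) (n - 3 * j) : ℕ) : ℝ) ≤
        Ph d c (max (u (j + 1)) 0) - Ph d c (max (u j) 0) + 60 * (d : ℝ) ^ 5 * c ^ 2 := by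
    intro j hj
    have hj3 : 3 * j ≤ n := by
      have := Finset.mem_range.1 hj
      omega
    have hj3' : (3 : ℝ) * j ≤ n := by exact_mod_cast hj3
    have hi : ((n - 3 * j : ℕ) : ℝ) = n - 3 * j := by
      rw [Nat.cast_sub hj3]
      push_cast
      ring
    have hui : c - 3 * u (j + 1) = d * (((n - 3 * j : ℕ) : ℝ) + 1) := by
      rw [hi, hc]
      simp only [hu]
      push_cast
      ring
    have hi0 : (0 : ℝ) ≤ ((n - 3 * j : ℕ) : ℝ) := Nat.cast_nonneg _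
    have huc : 3 * u (j + 1) ≤ c := by
      have : 0 ≤ (d : ℝ) * (((n - 3 * j : ℕ) : ℝ) + 1) := by positivity
      linarith
    unfold bdim
    by_cases he : τ - n + d * j < 0
    · rw [if_pos he]
      simp only [Nat.cast_zero, mul_zero]
      have he' : (τ : ℝ) - n + d * j ≤ -1 := by
        have h : τ - n + d * j ≤ -1 := by omega
        exact_mod_cast h
      have hτ0 : (0 : ℝ) ≤ τ := by exact_mod_cast hτ
      have h1 := step_zero d c (u (j + 1)) hd' hc4 (by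
        simp only [hu]
        push_cast
        linarith) huc
      rw [hstep] at h1
      exact h1
    · rw [if_neg he]
      rw [not_lt] at he
      set e : ℕ := (τ - n + d * j).toNat with hedef
      have hee : (e : ℝ) = (τ : ℝ) - n + d * j := by
        have h : ((e : ℤ) : ℤ) = τ - n + d * j := Int.toNat_of_nonneg he
        exact_mod_cast congrArg (fun z : ℤ => (z : ℝ)) h
      have hτd' : (τ : ℝ) ≤ d := by exact_mod_cast hτd
      have heu : (e : ℝ) + 2 ≤ u (j + 1) := by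
        rw [hee]
        simp only [hu]
        push_cast
        linarith
      have he0 : (0 : ℝ) ≤ e := Nat.cast_nonneg e
      have hu0 : 0 ≤ u (j + 1) := by linarith
      have h1 := bdim_bound d e (n - 3 * j) (by omega)
      set I : ℝ := ((n - 3 * j : ℕ) : ℝ) + 1 with hI
      have hI0 : 0 ≤ I := by linarith
      have h2 : ((e : ℝ) + 2) ^ 2 * I / 2 + ((d : ℝ) - 1) * ((e : ℝ) + 2) * I ^ 2 / 2 ≤
          u (j + 1) ^ 2 * I / 2 + ((d : ℝ) - 1) * u (j + 1) * I ^ 2 / 2 := by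
        have h3 : ((e : ℝ) + 2) ^ 2 ≤ u (j + 1) ^ 2 := by
          exact pow_le_pow_left₀ (by linarith) heu 2
        have h4 := mul_le_mul_of_nonneg_right h3 hI0
        have h5 : ((d : ℝ) - 1) * ((e : ℝ) + 2) ≤ ((d : ℝ) - 1) * u (j + 1) :=
          mul_le_mul_of_nonneg_left heu (by linarith)
        have h6 := mul_le_mul_of_nonneg_right h5 (by positivity : 0 ≤ I ^ 2)
        linarith
      have h7 := step_all d c (u (j + 1)) hd' hc1 hu0 huc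
      rw [hstep, hui] at h7
      have h8 : 24 * (d : ℝ) ^ 3 * (u (j + 1) ^ 2 * I / 2 +
          ((d : ℝ) - 1) * u (j + 1) * I ^ 2 / 2) =
          12 * d * (d * (u (j + 1) ^ 2 * (d * I)) + (d - 1) * (u (j + 1) * (d * I) ^ 2)) := by
        ring
      have h9 := mul_le_mul_of_nonneg_left (h1.trans h2) (by positivity : 0 ≤ 24 * (d : ℝ) ^ 3)
      rw [h8] at h9
      exact h9.trans h7
  have hsum := Finset.sum_le_sum hterm
  rw [← Finset.mul_sum, Finset.sum_add_distrib, Finset.sum_range_sub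
    (fun j => Ph d c (max (u j) 0)), Finset.sum_const, Finset.card_range, nsmul_eq_mul] at hsum
  have hub : (ub d n τ : ℝ) = ∑ j ∈ Finset.range (n / 3 + 1),
      ((bdim d (τ - n + d * j) (n - 3 * j) : ℕ) : ℝ) := by
    unfold ub
    push_cast
    rfl
  rw [hub]
  refine hsum.trans ?_
  have h1 : Ph d c (max (u (n / 3 + 1)) 0) ≤ (4 * (d : ℝ) - 3) / 27 * c ^ 4 := by
    refine Ph_le d c _ (by linarith) (le_max_right _ _) ?_
    rcases le_total (u (n / 3 + 1)) 0 with h | h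
    · rw [max_eq_right h]
      linarith
    · rw [max_eq_left h]
      have h3 : ((n / 3 : ℕ) : ℝ) ≤ n / 3 := Nat.cast_div_le
      have h4 : (d : ℝ) * ((n / 3 : ℕ) : ℝ) ≤ d * (n / 3) :=
        mul_le_mul_of_nonneg_left h3 (by linarith)
      simp only [hu, hc]
      push_cast
      linarith
  have h2 : 0 ≤ Ph d c (max (u 0) 0) := by
    refine Ph_nonneg d c _ (by linarith) (le_max_right _ _) ?_
    rcases le_total (u 0) 0 with h | h
    · rw [max_eq_right h]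
      linarith
    · rw [max_eq_left h]
      simp only [hu, hc]
      have : 0 ≤ ((d : ℝ) - 3) * n := mul_nonneg (by linarith) hn0
      push_cast
      linarith
  have h5 : (((n / 3 + 1 : ℕ) : ℝ)) ≤ (n : ℝ) + 1 := by
    have : n / 3 + 1 ≤ n + 1 := by omega
    exact_mod_cast this
  have h6 : (((n / 3 + 1 : ℕ) : ℝ)) * (60 * (d : ℝ) ^ 5 * c ^ 2) ≤
      ((n : ℝ) + 1) * (60 * (d : ℝ) ^ 5 * c ^ 2) :=
    mul_le_mul_of_nonneg_right h5 (by positivity)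
  linarith

theorem pf_NUB : T_NUB := by
  intro d hd
  have hd' : (4 : ℝ) ≤ d := by exact_mod_cast hd
  set A : ℝ := (d : ℝ) - 3 with hA
  set B : ℝ := 4 * (d : ℝ) + 6 with hB
  have hA0 : 0 ≤ A := by rw [hA]; linarith
  have hB0 : 0 ≤ B := by rw [hB]; linarith
  refine ⟨((4 * (d : ℝ) - 3) / 27 * (4 * A ^ 3 * B + 6 * A ^ 2 * B ^ 2 + 4 * A * B ^ 3 + B ^ 4) +
    2 * (60 * (d : ℝ) ^ 5 * (A + B) ^ 2)) / (24 * (d : ℝ) ^ 3), ?_⟩
  intro N n τ hN hn hτ hτd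
  have h1 := ub_fixed d hd n τ hτ hτd
  have hN' : (1 : ℝ) ≤ N := by exact_mod_cast hN
  have hn' : (n : ℝ) ≤ N := by exact_mod_cast hn
  have hn0 : (0 : ℝ) ≤ n := Nat.cast_nonneg n
  have hcc : ((d : ℝ) - 3) * n + 4 * d + 6 ≤ A * N + B := by
    rw [hA, hB]
    have := mul_le_mul_of_nonneg_left hn' (by linarith : (0 : ℝ) ≤ d - 3)
    linarith
  have hc0 : 0 ≤ ((d : ℝ) - 3) * n + 4 * d + 6 := by
    have : 0 ≤ ((d : ℝ) - 3) * n := mul_nonneg (by linarith) hn0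
    linarith
  have h2 : (((d : ℝ) - 3) * n + 4 * d + 6) ^ 4 ≤ (A * N + B) ^ 4 := pow_le_pow_left₀ hc0 hcc 4
  have h3 : (((d : ℝ) - 3) * n + 4 * d + 6) ^ 2 ≤ ((A + B) * N) ^ 2 := by
    refine pow_le_pow_left₀ hc0 (hcc.trans ?_) 2
    nlinarith
  have h4 : (A * N + B) ^ 4 ≤ A ^ 4 * N ^ 4 +
      (4 * A ^ 3 * B + 6 * A ^ 2 * B ^ 2 + 4 * A * B ^ 3 + B ^ 4) * (N : ℝ) ^ 3 := by
    have e1 : (A * N + B) ^ 4 = A ^ 4 * N ^ 4 + 4 * A ^ 3 * B * N ^ 3 +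
        6 * A ^ 2 * B ^ 2 * N ^ 2 + 4 * A * B ^ 3 * N + B ^ 4 := by ring
    have e2 : (N : ℝ) ^ 2 ≤ N ^ 3 := pow_le_pow_right₀ hN' (by norm_num)
    have e3 : (N : ℝ) ≤ N ^ 3 := le_self_pow₀ hN' (by norm_num)
    have e4 : (1 : ℝ) ≤ N ^ 3 := one_le_pow₀ hN'
    have e5 := mul_le_mul_of_nonneg_left e2 (by positivity : 0 ≤ 6 * A ^ 2 * B ^ 2)
    have e6 := mul_le_mul_of_nonneg_left e3 (by positivity : 0 ≤ 4 * A * B ^ 3)
    have e7 := mul_le_mul_of_nonneg_left e4 (by positivity : 0 ≤ B ^ 4)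
    rw [e1]
    linarith
  have h5 : ((n : ℝ) + 1) * (60 * (d : ℝ) ^ 5 * (((d : ℝ) - 3) * n + 4 * d + 6) ^ 2) ≤
      2 * (60 * (d : ℝ) ^ 5 * (A + B) ^ 2) * (N : ℝ) ^ 3 := by
    have e1 : (n : ℝ) + 1 ≤ 2 * N := by linarith
    have e2 : 60 * (d : ℝ) ^ 5 * (((d : ℝ) - 3) * n + 4 * d + 6) ^ 2 ≤
        60 * (d : ℝ) ^ 5 * ((A + B) * N) ^ 2 := mul_le_mul_of_nonneg_left h3 (by positivity)
    have e3 := mul_le_mul e1 e2 (by positivity) (by positivity)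
    refine e3.trans (le_of_eq ?_)
    ring
  have h6 : (0 : ℝ) ≤ (4 * (d : ℝ) - 3) / 27 := by
    have : 0 ≤ 4 * (d : ℝ) - 3 := by linarith
    positivity
  have h7 := mul_le_mul_of_nonneg_left (h2.trans h4) h6
  have h8 : 24 * (d : ℝ) ^ 3 * (ub d n τ : ℝ) ≤ (4 * (d : ℝ) - 3) / 27 * (A ^ 4 * N ^ 4) +
      ((4 * (d : ℝ) - 3) / 27 * (4 * A ^ 3 * B + 6 * A ^ 2 * B ^ 2 + 4 * A * B ^ 3 + B ^ 4) +
    2 * (60 * (d : ℝ) ^ 5 * (A + B) ^ 2)) * (N : ℝ) ^ 3 := by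
    have e1 : (4 * (d : ℝ) - 3) / 27 * (A ^ 4 * N ^ 4 + (4 * A ^ 3 * B + 6 * A ^ 2 * B ^ 2 +
        4 * A * B ^ 3 + B ^ 4) * (N : ℝ) ^ 3) = (4 * (d : ℝ) - 3) / 27 * (A ^ 4 * N ^ 4) +
        (4 * (d : ℝ) - 3) / 27 * (4 * A ^ 3 * B + 6 * A ^ 2 * B ^ 2 + 4 * A * B ^ 3 + B ^ 4) *
          (N : ℝ) ^ 3 := by ring
    rw [e1] at h7
    linarith
  have hd3 : (0 : ℝ) < 24 * (d : ℝ) ^ 3 := by positivity
  have h9 : (ub d n τ : ℝ) ≤ ((4 * (d : ℝ) - 3) / 27 * (A ^ 4 * N ^ 4) +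
      ((4 * (d : ℝ) - 3) / 27 * (4 * A ^ 3 * B + 6 * A ^ 2 * B ^ 2 + 4 * A * B ^ 3 + B ^ 4) +
    2 * (60 * (d : ℝ) ^ 5 * (A + B) ^ 2)) * (N : ℝ) ^ 3) / (24 * (d : ℝ) ^ 3) := by
    rw [le_div_iff₀ hd3]
    linarith
  refine h9.trans (le_of_eq ?_)
  have hd0 : (d : ℝ) ≠ 0 := by positivity
  rw [add_div]
  congr 1
  · field_simp
    ring
  · ring

end Pool.Agent.H85.SM
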