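import Pool.Agent.H85.SM.FRJ

/-!
# Homogeneity of the elements of a chart
-/

set_option autoImplicit false

namespace Pool.Agent.H85.SM

open MvPolynomial Pool.Agent.H84.SM

section

variable {k : Type} [Field k]

lemma evl_map {B B' : Type} [CommRing B] [Algebra k B] [CommRing B'] [Algebra k B'] (φ : B →+* B')
    (hφ : ∀ a : k, φ (algebraMap k B a) = algebraMap k B' a) (l : Fin 3) (g : B)
    (x q s : Fin 3 → B) (N : P2 k) :
    φ (evl l g x q s N) =
      evl l (φ g) (fun i => φ (x i)) (fun i => φ (q i)) (fun i => φ (s i)) N := by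
  unfold evl
  rw [Polynomial.coe_eval₂RingHom, Polynomial.coe_eval₂RingHom, Polynomial.hom_eval₂, map_mul]
  congr 1
  refine MvPolynomial.ringHom_ext ?_ ?_
  · intro a
    simp only [RingHom.comp_apply, RingHom.coe_coe, algHom_C]
    exact hφ a
  · intro i
    simp only [RingHom.comp_apply, RingHom.coe_coe, aeval_X]
    rcases i with i | i
    · rfl
    · fin_cases i
      · exact map_mul _ _ _
      · exact map_mul _ _ _

lemma wy_scale {B : Type} [CommRing B] [Algebra k B] (a b : Fin 3 → B) (T : B) {c : A2 k} {i : ℕ}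
    (hc : IsWeightedHomogeneous wy c i) :
    aeval (Sum.elim a fun j => T * b j) c = T ^ i * aeval (Sum.elim a b) c := by
  rw [aeval_def, aeval_def, eval₂_eq', eval₂_eq', Finset.mul_sum]
  refine Finset.sum_congr rfl fun m hm => ?_
  have h1 := hc (mem_support_iff.1 hm)
  rw [Finsupp.weight_apply, Finsupp.sum_fintype _ _ (by intro j; exact zero_smul _ _),
    Fintype.sum_sum_type] at h1
  have h2 : ∑ j : Fin 3, m (Sum.inr j) = i := by
    rw [← h1]
    simp [wy]
  rw [Fintype.prod_sum_type, Fintype.prod_sum_type]
  simp only [Sum.elim_inl, Sum.elim_inr, mul_pow, Finset.prod_mul_distrib]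
  rw [Finset.prod_pow_eq_pow_sum, h2]
  ring

/-- The substitution `q ↦ T q`, `z ↦ T ^ 3 z`. -/
noncomputable def scl (k : Type) [Field k] : P2 k →+* Polynomial (P2 k) :=
  Polynomial.eval₂RingHom (R := B2 k) (S := Polynomial (P2 k))
    ((aeval (Sum.elim (fun i => Polynomial.C (Polynomial.C (X (Sum.inl i))))
      (fun i => Polynomial.X * Polynomial.C (Polynomial.C (X (Sum.inr i))))) :
        B2 k →ₐ[k] Polynomial (P2 k)) : B2 k →+* Polynomial (P2 k))
    (Polynomial.X ^ 3 * Polynomial.C (Polynomial.X : P2 k))

lemma scl_x (P : MvPolynomial (Fin 3) k) :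
    scl k (Polynomial.C (aeval xb P)) = Polynomial.C (Polynomial.C (aeval xb P)) := by
  unfold scl
  rw [Polynomial.coe_eval₂RingHom, Polynomial.eval₂_C]
  induction P using MvPolynomial.induction_on with
  | C a =>
    simp only [algHom_C, RingHom.coe_coe, AlgHom.commutes]
    rfl
  | add p q hp hq =>
    rw [map_add, map_add, hp, hq]
    simp only [map_add]
  | mul_X p i hp =>
    rw [map_mul, map_mul, hp]
    simp [xb]

lemma scl_q (i : Fin 2) :
    scl k (Polynomial.C (qb i)) = Polynomial.X * Polynomial.C (Polynomial.C (qb i)) := by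
  unfold scl qb
  rw [Polynomial.coe_eval₂RingHom, Polynomial.eval₂_C]
  simp

lemma scl_xb (i : Fin 3) :
    scl k (Polynomial.C (xb i)) = Polynomial.C (Polynomial.C (xb i)) := by
  unfold scl xb
  rw [Polynomial.coe_eval₂RingHom, Polynomial.eval₂_C]
  simp

lemma scl_X : scl k Polynomial.X = Polynomial.X ^ 3 * Polynomial.C Polynomial.X := by
  unfold scl
  rw [Polynomial.coe_eval₂RingHom, Polynomial.eval₂_X]

lemma scl_chy (G : MvPolynomial (Fin 3) k) (l i : Fin 3) :
    scl k (Polynomial.C (chy G l i)) =
      Polynomial.X * Polynomial.C (Polynomial.C (chy G l i)) := by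
  unfold chy
  split_ifs with h1 h2
  · simp only [map_neg, map_add, map_mul, gr, scl_x, scl_q]
    ring
  · simp only [map_mul, gr, scl_x, scl_q]
    ring
  · simp only [map_mul, gr, scl_x, scl_q]
    ring

lemma scl_hs (G : MvPolynomial (Fin 3) k) (l : Fin 3) :
    scl k (Polynomial.C (hs G xb (chy G l))) =
      Polynomial.X ^ 2 * Polynomial.C (Polynomial.C (hs G xb (chy G l))) := by
  unfold hs
  simp only [map_sum, map_mul, scl_x, scl_chy, Finset.mul_sum]
  refine Finset.sum_congr rfl fun i _ => Finset.sum_congr rfl fun j _ => ?_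
  ring

lemma scl_chw (G : MvPolynomial (Fin 3) k) (d : ℕ) (l : Fin 3) :
    scl k (chw G d l) = Polynomial.X ^ 3 * Polynomial.C (chw G d l) := by
  unfold chw
  have hd : scl k (Polynomial.C ((d : B2 k))) = Polynomial.C (Polynomial.C ((d : B2 k))) := by
    simp
  simp only [map_sub, map_mul, scl_x, scl_q, scl_xb, scl_hs, scl_X, hd]
  ring

lemma scl_Psi (G : MvPolynomial (Fin 3) k) (d : ℕ) (l : Fin 3) {e n : ℕ} {N : R2 k}
    (hN : BHN e n N) :
    scl k (Psi G d l N) = Polynomial.X ^ n * Polynomial.C (Psi G d l N) := by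
  unfold Psi
  rw [Polynomial.coe_eval₂RingHom, Polynomial.eval₂_eq_sum_range, map_sum, map_sum,
    Finset.mul_sum]
  refine Finset.sum_congr rfl fun j _ => ?_
  rw [map_mul, map_mul, map_pow, map_pow, scl_chw]
  by_cases hj : 3 * j ≤ n
  · have h1 := ((hN j).1 hj).2
    have h2 : scl k ((Polynomial.C.comp ((aeval (Sum.elim xb (chy G l)) : A2 k →ₐ[k] B2 k) :
        A2 k →+* B2 k)) (N.coeff j)) = Polynomial.X ^ (n - 3 * j) * Polynomial.C
        ((Polynomial.C.comp ((aeval (Sum.elim xb (chy G l)) : A2 k →ₐ[k] B2 k) :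
        A2 k →+* B2 k)) (N.coeff j)) := by
      have h3 := wy_scale (B := Polynomial (P2 k)) (fun i => Polynomial.C (Polynomial.C (xb i)))
        (fun i => Polynomial.C (Polynomial.C (chy G l i))) Polynomial.X h1
      have h4 : (scl k).comp (Polynomial.C.comp ((aeval (Sum.elim xb (chy G l)) :
          A2 k →ₐ[k] B2 k) : A2 k →+* B2 k)) = ((aeval (Sum.elim (fun i =>
          Polynomial.C (Polynomial.C (xb i))) fun i => Polynomial.X *
          Polynomial.C (Polynomial.C (chy G l i))) : A2 k →ₐ[k] Polynomial (P2 k)) :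
          A2 k →+* Polynomial (P2 k)) := by
        refine MvPolynomial.ringHom_ext ?_ ?_
        · intro a
          have h5 := scl_x (k := k) (C a)
          rw [algHom_C] at h5
          simp only [RingHom.comp_apply, RingHom.coe_coe, algHom_C]
          rw [h5]
          rfl
        · intro i
          simp only [RingHom.comp_apply, RingHom.coe_coe, aeval_X]
          rcases i with i | i
          · exact scl_xb i
          · exact scl_chy G l i
      have h5 : (Polynomial.C : P2 k →+* _).comp (Polynomial.C.comp ((aeval (Sum.elim xb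
          (chy G l)) : A2 k →ₐ[k] B2 k) : A2 k →+* B2 k)) = ((aeval (Sum.elim (fun i =>
          Polynomial.C (Polynomial.C (xb i))) fun i =>
          Polynomial.C (Polynomial.C (chy G l i))) : A2 k →ₐ[k] Polynomial (P2 k)) :
          A2 k →+* Polynomial (P2 k)) := by
        refine MvPolynomial.ringHom_ext ?_ ?_
        · intro a
          simp only [RingHom.comp_apply, RingHom.coe_coe, algHom_C]
          rfl
        · intro i
          simp only [RingHom.comp_apply, RingHom.coe_coe, aeval_X]
          rcases i with i | i <;> rfl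
      have h6 := congrArg (fun f => f (N.coeff j)) h4
      have h7 := congrArg (fun f => f (N.coeff j)) h5
      simp only [RingHom.comp_apply, RingHom.coe_coe] at h6 h7
      simp only [RingHom.comp_apply, RingHom.coe_coe]
      rw [h6, h7, h3]
    rw [h2]
    have h8 : (Polynomial.X : Polynomial (P2 k)) ^ n =
        Polynomial.X ^ (n - 3 * j) * (Polynomial.X ^ 3) ^ j := by
      rw [← pow_mul, ← pow_add]
      congr 1
      omega
    have h9 := mul_pow (Polynomial.X ^ 3 : Polynomial (P2 k)) (Polynomial.C (chw G d l)) j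
    rw [h8]
    refine (congrArg (fun t => Polynomial.X ^ (n - 3 * j) * Polynomial.C ((Polynomial.C.comp
      ((aeval (Sum.elim xb (chy G l)) : A2 k →ₐ[k] B2 k) : A2 k →+* B2 k)) (N.coeff j)) * t)
      h9).trans ?_
    ring
  · rw [(hN j).2 (by omega)]
    simp

/-- The elements of a chart are weighted homogeneous. -/
lemma scl_N1 (G : MvPolynomial (Fin 3) k) (hG : gp G ≠ 0) (d : ℕ) (l : Fin 3) {e n M : ℕ}
    {N : R2 k} (hN : BHN e n N) {N1 : P2 k} (h : gp G ^ M * N1 = Psi G d l N) :
    scl k N1 = Polynomial.X ^ n * Polynomial.C N1 := by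
  have h1 := congrArg (scl k) h
  rw [scl_Psi G d l hN, ← h, map_mul, map_pow] at h1
  have h2 : scl k (gp G) = Polynomial.C (gp G) := scl_x G
  rw [h2, map_mul, map_pow] at h1
  have h3 : (Polynomial.C (gp G) : Polynomial (P2 k)) ^ M ≠ 0 :=
    pow_ne_zero _ (Polynomial.C_ne_zero.2 hG)
  refine mul_left_cancel₀ h3 ?_
  rw [h1]
  ring

/-- Homogeneity of the values. -/
lemma evl_scale (G : MvPolynomial (Fin 3) k) (hG : gp G ≠ 0) (d : ℕ) (l : Fin 3) {e n M : ℕ}
    {N : R2 k} (hN : BHN e n N) {N1 : P2 k} (h : gp G ^ M * N1 = Psi G d l N)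
    {B : Type} [CommRing B] [Algebra k B] (g : B) (x q s : Fin 3 → B) (T : B) :
    evl l g x (fun i => T * q i) (fun i => T ^ 3 * s i) N1 = T ^ n * evl l g x q s N1 := by
  have h1 : (Polynomial.eval₂RingHom (evl l g x q s) T).comp (scl k) =
      evl l g x (fun i => T * q i) (fun i => T ^ 3 * s i) := by
    refine Polynomial.ringHom_ext' ?_ ?_
    · refine MvPolynomial.ringHom_ext ?_ ?_
      · intro a
        have h5 := scl_x (k := k) (C a)
        rw [algHom_C] at h5
        simp only [RingHom.comp_apply]
        have h6 : (C a : B2 k) = algebraMap k (B2 k) a := rfl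
        rw [h6, h5]
        unfold evl
        simp
      · intro i
        simp only [RingHom.comp_apply]
        rcases i with i | i
        · have h5 := scl_xb (k := k) i
          unfold xb at h5
          rw [h5]
          unfold evl
          simp
        · have h5 := scl_q (k := k) i
          unfold qb at h5
          rw [h5]
          unfold evl
          fin_cases i
          · simp
            ring
          · simp
            ring
    · simp only [RingHom.comp_apply]
      rw [scl_X]
      unfold evl
      simp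
      ring
  have h2 := congrArg (fun f => f N1) h1
  simp only [RingHom.comp_apply] at h2
  rw [← h2, scl_N1 G hG d l hN h]
  simp [mul_comm]

end

end Pool.Agent.H85.SM
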